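import Pool.Agent.Work.MP_8c5903_an.Main

open MeasureTheory Pool.Agent.Work.MP_8c5903_an

/-- The tensor product Haar shift `T ⊗ T` admits no uniform gap on indicator functions: for every
`η < 1` there is a measurable set `U ⊆ ℝ²` of finite positive measure with
`∫_U |T_[2] 1_U|² > η |U|`. The operator is described by its action on the product Haar system;
a bounded operator with that action exists, and the conclusion holds for every such operator. -/
theorem Pool.Agent.Results.MP_8c5903_an.NoGap.result :
    (∃ S, IsTensorShift S) ∧ ∀ S, IsTensorShift S → ∀ η : ℝ, η < 1 →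
      ∃ (U : Set (ℝ × ℝ)) (hU : MeasurableSet U) (hfin : volume U ≠ ⊤), 0 < volume U ∧
        η * volume.real U < ∫ x in U, ‖S (indicatorConstLp 2 hU hfin (1 : ℂ)) x‖ ^ 2 :=
  ⟨exists_tensorShift, fun _ hS _ hη => no_gap hS hη⟩
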